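import Pool.Agent.H64.TF.CCommon

/-!
# C5: counting in a region (MP_7a929c_al)
-/

set_option autoImplicit false

namespace Pool.Agent.H64.TF

open Equiv Pool.Agent.H7.TF

theorem C5 (h9 : T_A9) (h0 : T_C0) (h1 : T_C1) : T_C5 := by
  classical
  intro P _ c q
  obtain ⟨x, hx⟩ : ∃ x, c.rg x = q := Quotient.exists_rep q
  obtain ⟨d₀, hd₀O, hd₀⟩ := (h9 c.D c.σ c.θ c.ω _ c.pic.planar c.con c.cut c.ne).2 x
  have hd₀q : c.rg d₀ = q := by rw [← hx]; exact ((rg_eq c).2 hd₀).symm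
  refine ⟨?_, ?_, ?_⟩
  · have : Nonempty {z : Quotient (Perm.SameCycle.setoid (c.ω * (c.σ * c.θ))) //
        ∃ x ∈ c.O, Quotient.mk _ x = z ∧ c.rg x = q} := ⟨⟨_, d₀, hd₀O, rfl, hd₀q⟩⟩
    exact Nat.card_pos
  · have : Nonempty {d : c.D // c.rg d = q ∧ d ∈ c.O} := ⟨⟨d₀, hd₀q, hd₀O⟩⟩
    exact Nat.card_pos
  · refine le_trans ?_ (XQ_card c h0 h1 q)
    have hseg : ∀ o : {d : c.D // c.rg d = q ∧ d ∈ c.O ∧ c.s < seg c.σ c.ω d},
        c.s + 1 < Function.minimalPeriod (c.ω * c.σ) o.1 := by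
      rintro ⟨o, h1, h2, h3⟩
      unfold seg at h3
      change c.s + 1 < Function.minimalPeriod (c.ω * c.σ) o
      omega
    let f : Fin (c.s + 1) × {d : c.D // c.rg d = q ∧ d ∈ c.O ∧ c.s < seg c.σ c.ω d} →
        {d : c.D // XQ c q d} := fun p => ⟨((c.ω * c.σ) ^ ((p.1 : ℕ) + 1)) p.2.1, by
      obtain ⟨i, o, h1, h2, h3⟩ := p
      have hs : (c.ω * c.σ).SameCycle (((c.ω * c.σ) ^ ((i : ℕ) + 1)) o) o :=
        Perm.SameCycle.symm ⟨((i : ℕ) + 1 : ℕ), by rw [zpow_natCast]⟩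
      refine ⟨(rg_of_sameCycle c hs).trans h1, ?_⟩
      by_cases hk : kcut c.R.length c.kind (((c.ω * c.σ) ^ ((i : ℕ) + 1)) o) = none
      · exact Or.inl hk
      · exact Or.inr ⟨hk, o, hs, kcut_of_mem c h2⟩⟩
    have hf : Function.Injective f := by
      rintro ⟨i, o⟩ ⟨i', o'⟩ h
      have h' : ((c.ω * c.σ) ^ ((i : ℕ) + 1)) o.1 = ((c.ω * c.σ) ^ ((i' : ℕ) + 1)) o'.1 :=
        congrArg Subtype.val h
      have hs1 : (c.ω * c.σ).SameCycle o.1 (((c.ω * c.σ) ^ ((i : ℕ) + 1)) o.1) :=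
        ⟨((i : ℕ) + 1 : ℕ), by rw [zpow_natCast]⟩
      have hs2 : (c.ω * c.σ).SameCycle o'.1 (((c.ω * c.σ) ^ ((i' : ℕ) + 1)) o'.1) :=
        ⟨((i' : ℕ) + 1 : ℕ), by rw [zpow_natCast]⟩
      have ho : o.1 = o'.1 := by
        apply c.cut.uniq _ o.2.2.1 _ o'.2.2.1
        rw [h'] at hs1
        exact hs1.trans hs2.symm
      have ho' : o = o' := Subtype.ext ho
      subst ho'
      have hi : (i : ℕ) + 1 = (i' : ℕ) + 1 := by
        have hlt := hseg o
        have hinj := Function.iterate_injOn_Iio_minimalPeriod (f := (c.ω * c.σ)) (x := o.1)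
        apply hinj
        · have := i.2; simp only [Set.mem_Iio]; omega
        · have := i'.2; simp only [Set.mem_Iio]; omega
        · simp only [Perm.iterate_eq_pow]
          exact h'
      have hi' : i = i' := Fin.ext (by omega)
      rw [hi']
    have := Nat.card_le_card_of_injective f hf
    rwa [Nat.card_prod, Nat.card_fin] at this

end Pool.Agent.H64.TF
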