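import Pool.Agent.H64.TF.CCommon

/-!
# C7: counting the relator corners at the boundary vertices (MP_7a929c_al)
-/

set_option autoImplicit false

namespace Pool.Agent.H64.TF

open Equiv Pool.Agent.H7.TF

theorem C7 (h8 : T_A8) (h0 : T_C0) (h1 : T_C1) : T_C7 := by
  classical
  intro P _ c _ _ x
  have hcutnone : ∀ z, c.kind z = none → kcut c.R.length c.kind z = none :=
    fun z hz => (kcut_none c).2 (Or.inl hz)
  constructor
  · -- every boundary corner outside `O` lies in an active region
    have hmain : ∀ d z, d ∉ c.O → c.σ.SameCycle d z → c.kind z = none →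
        c.act (c.rg d) ∧ XQ c (c.rg d) d := by
      intro d z hd hdz hz
      have hX : ∀ d', (c.ω * c.σ).SameCycle d d' → kcut c.R.length c.kind d' = none →
          XQ c (c.rg d) d := by
        intro d' h1 h2
        refine ⟨rfl, ?_⟩
        by_cases hk : kcut c.R.length c.kind d = none
        · exact Or.inl hk
        · exact Or.inr ⟨hk, d', h1, h2⟩
      by_cases hO : ∃ o ∈ c.O, c.σ.SameCycle o d
      · -- (ii)
        obtain ⟨o', ho', hod⟩ := hO
        have hex : ∃ i : ℕ, ∃ o ∈ c.O, (c.σ ^ i) o = d := by
          obtain ⟨i, hi⟩ := hod.exists_nat_pow_eq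
          exact ⟨i, o', ho', hi⟩
        obtain ⟨o, ho, hoi⟩ := Nat.find_spec hex
        set i := Nat.find hex with hi
        have hmin : ∀ j < i, ¬ ∃ o ∈ c.O, (c.σ ^ j) o = d := fun j hj => Nat.find_min hex hj
        obtain ⟨n, hn, hseg, hnO, -⟩ := h8 c.D c.σ c.θ c.ω _ c.cut o ho
        have hi1 : 1 ≤ i := by
          by_contra hcon
          have : i = 0 := by omega
          rw [this] at hoi
          exact hd (by rw [← hoi]; exact ho)
        have hin : i ≤ n := by
          by_contra hcon
          push Not at hcon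
          apply hmin (i - (n + 1)) (by omega)
          refine ⟨_, hnO, ?_⟩
          rw [← Perm.mul_apply, ← pow_add, Nat.sub_add_cancel hcon]
          exact hoi
        have hs : (c.ω * c.σ).SameCycle o d := by
          refine ⟨(i : ℕ), ?_⟩
          rw [zpow_natCast, (hseg i hi1 hin).2]
          exact hoi
        have hσ : c.σ.SameCycle o d := ⟨(i : ℕ), by rw [zpow_natCast]; exact hoi⟩
        refine ⟨Or.inr ⟨o, rg_of_sameCycle c hs, ho, z, hσ.trans hdz, hz⟩, ?_⟩
        exact hX o hs.symm (kcut_of_mem c ho)
      · -- (i)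
        push Not at hO
        have hpow : ∀ i : ℕ, ((c.ω * c.σ) ^ i) d = (c.σ ^ i) d := by
          intro i
          induction i with
          | zero => rfl
          | succ i ih =>
            rw [pow_succ', Perm.mul_apply, ih, pow_succ', Perm.mul_apply, Perm.mul_apply]
            apply c.cut.off
            intro hmem
            apply hO _ hmem
            refine Perm.SameCycle.symm ⟨((i + 1 : ℕ) : ℤ), ?_⟩
            rw [zpow_natCast, pow_succ', Perm.mul_apply]
        obtain ⟨i, hi⟩ := hdz.exists_nat_pow_eq
        have hs : (c.ω * c.σ).SameCycle d z := ⟨(i : ℕ), by rw [zpow_natCast, hpow, hi]⟩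
        refine ⟨Or.inl ?_, hX z hs (hcutnone z hz)⟩
        have : Nonempty {d' : c.D // c.rg d' = c.rg d ∧ c.kind d' = none} :=
          ⟨⟨z, (rg_of_sameCycle c hs).symm, hz⟩⟩
        exact Nat.card_pos
    -- counting
    have hKB : c.KB = (Finset.univ.filter (fun d : c.D => d ∈ c.O ∧
        ∃ z, c.σ.SameCycle d z ∧ c.kind z = none)).card := by
      unfold Ctx.KB
      rw [Nat.card_eq_fintype_card, Fintype.card_subtype]
    have hbd : bdry c.σ c.θ c.kind x = (Finset.univ.filter (fun d : c.D => conn c.σ c.θ x d ∧
        c.kind d ≠ none ∧ ∃ d', c.σ.SameCycle d d' ∧ c.kind d' = none)).card := by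
      unfold bdry
      rw [Nat.card_eq_fintype_card, Fintype.card_subtype]
    have hsub : (Finset.univ.filter (fun d : c.D => conn c.σ c.θ x d ∧
        c.kind d ≠ none ∧ ∃ d', c.σ.SameCycle d d' ∧ c.kind d' = none)) ⊆
        (Finset.univ.filter (fun d : c.D => d ∈ c.O ∧
          ∃ z, c.σ.SameCycle d z ∧ c.kind z = none)) ∪
        (Finset.univ.filter (fun q => c.act q)).biUnion
          (fun q => Finset.univ.filter (fun d : c.D => XQ c q d)) := by
      intro d hd
      simp only [Finset.mem_filter, Finset.mem_univ, true_and] at hd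
      obtain ⟨-, hk, z, hdz, hz⟩ := hd
      rw [Finset.mem_union]
      by_cases hdO : d ∈ c.O
      · left
        simp only [Finset.mem_filter, Finset.mem_univ, true_and]
        exact ⟨hdO, z, hdz, hz⟩
      · right
        rw [Finset.mem_biUnion]
        obtain ⟨h1, h2⟩ := hmain d z hdO hdz hz
        exact ⟨c.rg d, by simpa using h1, by simpa using h2⟩
    rw [hbd, hKB]
    refine (Finset.card_le_card hsub).trans ((Finset.card_union_le _ _).trans ?_)
    apply Nat.add_le_add_left
    refine Finset.card_biUnion_le.trans ?_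
    apply Finset.sum_le_sum
    intro q _
    have h3 := XQ_card c h0 h1 q
    rw [Nat.card_eq_fintype_card, Fintype.card_subtype] at h3
    exact h3
  · -- injective map from active regions without holes
    have hsel : ∀ q : {q : c.Reg // c.act q ∧ c.bQ q = 0}, ∃ d : {d : c.D // d ∈ c.O ∧
        ∃ z, c.σ.SameCycle d z ∧ c.kind z = none}, c.rg d.1 = q.1 := by
      rintro ⟨q, h1 | ⟨d, hq, hd, hz⟩, h2⟩
      · omega
      · exact ⟨⟨d, hd, hz⟩, hq⟩
    choose f hf using hsel
    have hinj : Function.Injective f := by
      intro a b hab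
      apply Subtype.ext
      rw [← hf a, ← hf b, hab]
    exact Nat.card_le_card_of_injective f hinj

end Pool.Agent.H64.TF
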