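import Pool.Agent.H7.TF.Targets

/-!
# C8: arithmetic (MP_7a929c_al)
-/

set_option autoImplicit false

namespace Pool.Agent.H64.TF

open Pool.Agent.H7.TF

theorem C8 : T_C8 := by
  intro Q _ t m b d V E KB ht hm h4 h24 hV hE hm2
  have key : ∀ q, (m q : ℤ) - 18 * b q - 4 * (if t q = 1 ∧ b q = 0 then (1 : ℤ) else 0) ≤
      2 * m q + 8 * t q - 16 - 6 * d q - 8 * b q := by
    intro q
    have h1 := ht q
    have h2 := hm q
    have h3 := h4 q
    have h5 := h24 q
    split_ifs with h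
    · obtain ⟨ha, hb⟩ := h
      have h6 := h3 ha hb
      omega
    · by_cases ha : t q = 1
      · have hb : b q ≠ 0 := fun hb => h ⟨ha, hb⟩
        omega
      · omega
  have hsum := Finset.sum_le_sum (s := Finset.univ) (fun q _ => key q)
  simp only [Finset.sum_sub_distrib, Finset.sum_add_distrib, ← Finset.mul_sum,
    Finset.sum_const, Finset.card_univ, nsmul_eq_mul] at hsum
  have hcard : (∑ q : Q, (if t q = 1 ∧ b q = 0 then (1 : ℤ) else 0)) =
      ((Finset.univ.filter (fun q => t q = 1 ∧ b q = 0)).card : ℤ) := by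
    rw [Finset.sum_boole]
  rw [hcard] at hsum
  have hV' : (4 : ℤ) * V + KB ≤ ∑ q, (m q : ℤ) + 3 * ∑ q, (d q : ℤ) + 4 * ∑ q, (b q : ℤ) := by
    exact_mod_cast hV
  have hE' : (2 : ℤ) * Fintype.card Q + V = 2 + E + ∑ q, (t q : ℤ) := by exact_mod_cast hE
  have hm2' : ∑ q, (m q : ℤ) = 2 * E := by exact_mod_cast hm2
  have goal : (16 : ℤ) + 2 * KB + ∑ q, (m q : ℤ) ≤ 18 * ∑ q, (b q : ℤ) +
      4 * ((Finset.univ.filter (fun q => t q = 1 ∧ b q = 0)).card : ℤ) := by
    linarith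
  exact_mod_cast goal

end Pool.Agent.H64.TF
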