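import Pool.Agent.H7.TF.Targets

/-!
# Common lemmas for C5 and C7 (MP_7a929c_al)
-/

set_option autoImplicit false

namespace Pool.Agent.H64.TF

open Equiv Pool.Agent.H7.TF

variable {P : Type} [Group P] (c : Ctx P)

theorem rg_eq {x y : c.D} : c.rg x = c.rg y ↔ conn (c.ω * c.σ) c.θ x y := Quotient.eq

theorem rg_of_sameCycle {x y : c.D} (h : (c.ω * c.σ).SameCycle x y) : c.rg x = c.rg y := by
  rw [rg_eq]
  exact (le_sup_left : Perm.SameCycle.setoid (c.ω * c.σ) ≤ conn (c.ω * c.σ) c.θ) h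

theorem rg_of_sameCycle_θ {x y : c.D} (h : (c.θ).SameCycle x y) : c.rg x = c.rg y := by
  rw [rg_eq]
  exact (le_sup_right : Perm.SameCycle.setoid c.θ ≤ conn (c.ω * c.σ) c.θ) h

theorem rg_face (x : c.D) : c.rg ((c.ω * (c.σ * c.θ)) x) = c.rg x := by
  have h1 : c.rg (c.θ x) = c.rg x := (rg_of_sameCycle_θ c ⟨1, by simp⟩).symm
  have h2 : c.rg ((c.ω * c.σ) (c.θ x)) = c.rg (c.θ x) :=
    (rg_of_sameCycle c ⟨1, by simp⟩).symm
  rw [← h1, ← h2]
  rfl

theorem rg_face_pow (x : c.D) (i : ℕ) : c.rg (((c.ω * (c.σ * c.θ)) ^ i) x) = c.rg x := by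
  induction i with
  | zero => rfl
  | succ i ih => rw [pow_succ', Perm.mul_apply, rg_face, ih]

theorem kind_le {d : c.D} {j : ℕ} {s : Bool} {k : ℕ} (h : c.kind d = some (j, s, k)) :
    j ≤ c.R.length := by
  obtain ⟨r, hr, -⟩ := c.pic.rel d j s k h
  obtain ⟨hlt, -⟩ := List.getElem?_eq_some_iff.1 hr
  rw [List.length_append, List.length_singleton] at hlt
  omega

theorem kcut_none {d : c.D} : kcut c.R.length c.kind d = none ↔
    c.kind d = none ∨ ∃ s k, c.kind d = some (c.R.length, s, k) := by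
  unfold kcut
  rcases hd : c.kind d with _ | ⟨j, s, k⟩
  · simp
  · have h1 := kind_le c hd
    by_cases hj : j < c.R.length
    · simp only [hj, if_true]
      constructor
      · intro h; cases h
      · rintro (h | ⟨s', k', h⟩)
        · cases h
        · simp only [Option.some.injEq, Prod.mk.injEq] at h
          omega
    · have : j = c.R.length := by omega
      subst this
      simp

theorem kcut_of_mem {d : c.D} (h : d ∈ c.O) : kcut c.R.length c.kind d = none := by
  rw [kcut_none]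
  obtain ⟨s, h | h⟩ := h
  · exact Or.inr ⟨s, 0, h⟩
  · exact Or.inr ⟨s, 1, h⟩

/-- corners of level `n` or holes in a region -/
theorem hol_le (h0 : T_C0) (q : c.Reg) :
    Nat.card {d : c.D // c.rg d = q ∧ kcut c.R.length c.kind d = none} ≤
      c.bQ q + (1 + c.g.length) * c.mQ q := by
  classical
  obtain ⟨hA, hB, -⟩ := h0 P c
  -- the level `n` corners
  have h1 : Nat.card {d : c.D // c.rg d = q ∧ ∃ s k, c.kind d = some (c.R.length, s, k)} ≤
      (1 + c.g.length) * c.mQ q := by
    have hsurj : ∀ d : {d : c.D // c.rg d = q ∧ ∃ s k, c.kind d = some (c.R.length, s, k)},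
        ∃ p : Fin (1 + c.g.length) × {d : c.D // c.rg d = q ∧ d ∈ c.O},
          ((c.ω * (c.σ * c.θ)) ^ (p.1 : ℕ)) p.2.1 = d.1 := by
      rintro ⟨d, hq, s, k, hk⟩
      by_cases hd : d ∈ c.O
      · exact ⟨⟨⟨0, by omega⟩, ⟨d, hq, hd⟩⟩, rfl⟩
      · obtain ⟨o, k0, i, hk0, ho, hi1, hi2, rfl⟩ := hB d s k hk hd
        obtain ⟨hoO, -, -, hrun, -⟩ := hA o s k0 ho hk0
        have hle : rl c.g.length s k0 ≤ c.g.length := by
          unfold rl; split_ifs <;> omega
        have h3 := (hrun i hi1 hi2).2.1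
        have hrg : c.rg o = q := by
          rw [← hq, ← h3, rg_face_pow]
        exact ⟨⟨⟨i, by omega⟩, ⟨o, hrg, hoO⟩⟩, h3⟩
    choose f hf using hsurj
    have hinj : Function.Injective f := by
      intro a b hab
      apply Subtype.ext
      rw [← hf a, ← hf b, hab]
    have := Nat.card_le_card_of_injective f hinj
    rwa [Nat.card_prod, Nat.card_fin] at this
  -- the union
  have h2 : Nat.card {d : c.D // c.rg d = q ∧ kcut c.R.length c.kind d = none} ≤
      Nat.card {d : c.D // c.rg d = q ∧ c.kind d = none} +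
      Nat.card {d : c.D // c.rg d = q ∧ ∃ s k, c.kind d = some (c.R.length, s, k)} := by
    have hset : {d : c.D | c.rg d = q ∧ kcut c.R.length c.kind d = none} ⊆
        {d : c.D | c.rg d = q ∧ c.kind d = none} ∪
        {d : c.D | c.rg d = q ∧ ∃ s k, c.kind d = some (c.R.length, s, k)} := by
      rintro d ⟨h1, h2⟩
      rcases (kcut_none c).1 h2 with h3 | h3
      · exact Or.inl ⟨h1, h3⟩
      · exact Or.inr ⟨h1, h3⟩
    have h3 := (Set.ncard_le_ncard hset (Set.toFinite _)).trans (Set.ncard_union_le _ _)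
    exact h3
  unfold Ctx.bQ
  omega

/-- the corners of a region which are holes of the cut picture or lie at its boundary vertices -/
def XQ (q : c.Reg) (d : c.D) : Prop :=
  c.rg d = q ∧ (kcut c.R.length c.kind d = none ∨ (kcut c.R.length c.kind d ≠ none ∧
    ∃ d', (c.ω * c.σ).SameCycle d d' ∧ kcut c.R.length c.kind d' = none))

theorem XQ_card (h0 : T_C0) (h1 : T_C1) (q : c.Reg) :
    Nat.card {d : c.D // XQ c q d} ≤ (c.C + 1) * (c.bQ q + (1 + c.g.length) * c.mQ q) := by
  classical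
  have hH := hol_le c h0 q
  obtain ⟨x, hx⟩ : ∃ x, c.rg x = q := Quotient.exists_rep q
  obtain ⟨hp, hr, -⟩ := h1 P c
  have hQ := c.hQ c.D (c.ω * c.σ) c.θ c.h c.ty _ hp hr x
  have hconn : ∀ d, conn (c.ω * c.σ) c.θ x d ↔ c.rg d = q := by
    intro d
    rw [← rg_eq, hx]
    exact eq_comm
  have hb : bdry (c.ω * c.σ) c.θ (kcut c.R.length c.kind) x =
      Nat.card {d : c.D // c.rg d = q ∧ kcut c.R.length c.kind d ≠ none ∧
        ∃ d', (c.ω * c.σ).SameCycle d d' ∧ kcut c.R.length c.kind d' = none} := by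
    unfold bdry
    simp only [hconn]
  have hh : holes (c.ω * c.σ) c.θ (kcut c.R.length c.kind) x =
      Nat.card {d : c.D // c.rg d = q ∧ kcut c.R.length c.kind d = none} := by
    unfold holes
    simp only [hconn]
  rw [hb, hh] at hQ
  have h2 : Nat.card {d : c.D // XQ c q d} ≤
      Nat.card {d : c.D // c.rg d = q ∧ kcut c.R.length c.kind d = none} +
      Nat.card {d : c.D // c.rg d = q ∧ kcut c.R.length c.kind d ≠ none ∧
        ∃ d', (c.ω * c.σ).SameCycle d d' ∧ kcut c.R.length c.kind d' = none} := by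
    have hset : {d : c.D | XQ c q d} ⊆
        {d : c.D | c.rg d = q ∧ kcut c.R.length c.kind d = none} ∪
        {d : c.D | c.rg d = q ∧ kcut c.R.length c.kind d ≠ none ∧
        ∃ d', (c.ω * c.σ).SameCycle d d' ∧ kcut c.R.length c.kind d' = none} := by
      rintro d ⟨h1, h2⟩
      rcases h2 with h3 | h3
      · exact Or.inl ⟨h1, h3⟩
      · exact Or.inr ⟨h1, h3⟩
    exact (Set.ncard_le_ncard hset (Set.toFinite _)).trans (Set.ncard_union_le _ _)
  calc Nat.card {d : c.D // XQ c q d} ≤ _ := h2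
    _ ≤ (c.C + 1) * Nat.card {d : c.D // c.rg d = q ∧ kcut c.R.length c.kind d = none} := by
        rw [add_mul, one_mul]; omega
    _ ≤ _ := Nat.mul_le_mul_left _ hH

end Pool.Agent.H64.TF
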